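import Mathlib
import Pool.Agent.Run7.h69.CL6

/-!
# All moments of the 4-rank of the class groups of the quadratic fields `ℚ(√f(t))`

Let `f` be any polynomial with integer coefficients. For the integers `t` for which `f(t)` is not a
perfect square let `K_t = ℚ(√f(t))`, a real quadratic field if `f(t) > 0`. The quotient of the number
of the ideal classes of `K_t` of order dividing four by the number of those of order dividing two is
`2 ^ r`, where `r` is the 4-rank of the class group: it measures the part of the 2-primary
obstruction to unique factorisation which genus theory does not see. For every `k` and every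
`ε > 0` the average of its `k`-th power over the integers `t` of an interval `(x, x + H]` is bounded,
uniformly in `x` and `H ≥ |x| ^ ε`.

In the algebraic part an ideal class `c` which is a square and of order two is represented by a
rational integer `X = N(γ)` with `(X) = 𝔟 ^ 2`, whose class modulo squares determines `c`. It is a
local norm at the primes dividing `f(t)` once, so the number of the possible `X` is bounded by the
count of the descent by a 2-isogeny for `y² = x³ - f(t) x`, whose moments are bounded by the method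
of `MP_157626_nt.QuarticTwistMoments`.
-/

namespace Pool.Agent.Results.MP_321647_nt.FourRankMoments

open Finset Polynomial NumberField

/-- the field generated by the square roots of `d` over `ℚ` -/
abbrev Q (d : ℤ) : Type := ((X : ℚ[X]) ^ 2 - C (d : ℚ)).SplittingField

instance (d : ℤ) : NumberField (Q d) := NumberField.of_module_finite ℚ (Q d)

/-- the number of the ideal classes of `ℚ(√d)` whose `m`-th power is trivial -/
noncomputable def cl (m : ℕ) (d : ℤ) : ℕ := Nat.card {c : ClassGroup (𝓞 (Q d)) // c ^ m = 1}

/-- All moments of `|Cl[4]| / |Cl[2]| = 2 ^ (4-rank)` are bounded on average for the quadratic fields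
`ℚ(√f(t))`, uniformly in short intervals. -/
theorem result (f : ℤ[X]) (k : ℕ) (ε : ℝ) (hε : 0 < ε) :
    ∃ C : ℝ, ∀ (x : ℤ) (H : ℕ), 1 ≤ H → |(x : ℝ)| ^ ε ≤ H →
      ∑ t ∈ (Ioc x (x + H)).filter (fun t => ¬ IsSquare (f.eval t)),
        ((cl 4 (f.eval t) : ℝ) / cl 2 (f.eval t)) ^ k ≤ C * H := by
  set M : ℕ := ⌈1 / ε⌉₊ with hM
  obtain ⟨C, hC⟩ := Run7.h69.CL.main f k M
  refine ⟨C, fun x H hH hx => ?_⟩
  have hHr : (1 : ℝ) ≤ H := by exact_mod_cast hH
  have h1 : x.natAbs ≤ H ^ M := by
    have h2 : |(x : ℝ)| ≤ (H : ℝ) ^ (M : ℝ) := by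
      calc |(x : ℝ)| = (|(x : ℝ)| ^ ε) ^ (1 / ε) := by
            rw [← Real.rpow_mul (abs_nonneg _), mul_one_div_cancel hε.ne', Real.rpow_one]
        _ ≤ (H : ℝ) ^ (1 / ε) := Real.rpow_le_rpow (by positivity) hx (by positivity)
        _ ≤ (H : ℝ) ^ (M : ℝ) := Real.rpow_le_rpow_of_exponent_le hHr (Nat.le_ceil _)
    rw [Real.rpow_natCast] at h2
    have h3 : ((x.natAbs : ℕ) : ℝ) = |(x : ℝ)| := by
      rw [Nat.cast_natAbs, Int.cast_abs]
    have h4 : ((x.natAbs : ℕ) : ℝ) ≤ ((H ^ M : ℕ) : ℝ) := by
      rw [h3]
      push_cast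
      exact h2
    exact_mod_cast h4
  refine le_trans (le_of_eq ?_) (hC x H hH h1)
  refine sum_congr rfl fun t _ => ?_
  congr 1
  exact Run7.h69.CL.quot_eq (Run7.h69.CL.KF (f.eval t))

end Pool.Agent.Results.MP_321647_nt.FourRankMoments
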