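import Pool.Agent.Run7.h784.CG.All

set_option autoImplicit false

/-!
# Almost always the class group of a real quadratic field is generated by very small primes

For a squarefree `d > 1` let `K = ℚ(√d)`. Under the generalised Riemann hypothesis the class group of
`K` is generated by the prime ideals of norm at most `12 (log D)^2` (Bach). We prove,
unconditionally, for every `a > 2`:

* for all but `o(X)` of the squarefree `d ≤ X`, i.e. for 100% of them, and
* for all but `o(π(X))` of the PRIMES `d ≤ X`, i.e. for 100% of them,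

the class group of `K` is generated by the classes of the prime ideals of norm at most
`(log d) ^ a`. Hence for these `d` unique factorisation in the ring of integers of `K` is decided by the
primes up to `(log d) ^ a`: the ring is a principal ideal domain if and only if all prime ideals of
norm at most `(log d) ^ a` are principal, and if and only if every prime number `q ≤ (log d) ^ a` which is
the norm of an ideal is, up to sign, the norm of an integer of `K`.
-/

namespace Pool.Agent.Results.MP_321647_nt.GeneratedByTinyPrimes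

open Filter NumberField
open scoped Classical

/-- The subgroup of the class group generated by the classes of the nonzero prime ideals of norm at
most `B`. -/
noncomputable def Gen (K : Type) [Field K] [NumberField K] (B : ℝ) : Subgroup (ClassGroup (𝓞 K)) :=
  Subgroup.closure {c | ∃ P : nonZeroDivisors (Ideal (𝓞 K)), (P : Ideal (𝓞 K)).IsPrime ∧
    ((Ideal.absNorm (P : Ideal (𝓞 K)) : ℕ) : ℝ) ≤ B ∧ ClassGroup.mk0 P = c}

/-- The property of `d`: for the quadratic field which contains a square root of `d`, with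
`B = (log d) ^ a`, the class group is generated by the prime ideals of norm at most `B`, and unique
factorisation is decided by these prime ideals, and also by the equations `|N(x)| = q` for the prime
numbers `q ≤ B` which are norms of ideals. -/
def Good (a : ℝ) (d : ℕ) : Prop :=
  ∀ (K : Type) [Field K] [NumberField K], Module.finrank ℚ K = 2 → (∃ x : K, x ^ 2 = (d : K)) →
    Gen K ((Real.log d) ^ a) = ⊤ ∧
    (IsPrincipalIdealRing (𝓞 K) ↔ ∀ P : Ideal (𝓞 K), P.IsPrime →
      ((Ideal.absNorm P : ℕ) : ℝ) ≤ (Real.log d) ^ a → P.IsPrincipal) ∧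
    (IsPrincipalIdealRing (𝓞 K) ↔ ∀ q : ℕ, q.Prime → (q : ℝ) ≤ (Real.log d) ^ a →
      (∃ P : Ideal (𝓞 K), Ideal.absNorm P = q) → ∃ x : 𝓞 K, (Algebra.norm ℤ x).natAbs = q)

/-- If the prime numbers which are norms of ideals are norms of elements, small prime ideals are
principal. -/
theorem principal_of (K : Type) [Field K] [NumberField K] (hK : Module.finrank ℚ K = 2) (B : ℝ)
    (h : ∀ q : ℕ, q.Prime → (q : ℝ) ≤ B →
      (∃ P : Ideal (𝓞 K), Ideal.absNorm P = q) → ∃ x : 𝓞 K, (Algebra.norm ℤ x).natAbs = q)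
    (P : Ideal (𝓞 K)) (hP : P.IsPrime) (hB : ((Ideal.absNorm P : ℕ) : ℝ) ≤ B) :
    P.IsPrincipal := by
  by_cases hP0 : P = ⊥
  · rw [hP0]
    exact ⟨⟨0, by simp⟩⟩
  haveI := hP
  have hmax : P.IsMaximal := hP.isMaximal hP0
  -- the prime number below
  obtain ⟨q, hq, hqP⟩ : ∃ q : ℕ, q.Prime ∧ ((q : ℕ) : 𝓞 K) ∈ P := by
    have h1 : Ideal.absNorm P ≠ 1 := by
      rw [Ne, Ideal.absNorm_eq_one_iff]
      exact hP.ne_top
    have h2 : (Ideal.absNorm P : 𝓞 K) ∈ P := Ideal.absNorm_mem P
    have h3 : Ideal.absNorm P ≠ 0 := by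
      rw [Ne, Ideal.absNorm_eq_zero_iff]
      exact hP0
    have h4 : (((Ideal.absNorm P).primeFactorsList : Multiset ℕ).map
        (fun p : ℕ => (p : 𝓞 K))).prod ∈ P := by
      have e : (((Ideal.absNorm P).primeFactorsList : Multiset ℕ).map
          (fun p : ℕ => (p : 𝓞 K))).prod = (Ideal.absNorm P : 𝓞 K) := by
        rw [← Nat.cast_multiset_prod, Multiset.prod_coe, Nat.prod_primeFactorsList h3]
      rw [e]
      exact h2
    obtain ⟨y, hy, hyP⟩ := (hP.multiset_prod_mem_iff_exists_mem _).1 h4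
    obtain ⟨p, hp, rfl⟩ := Multiset.mem_map.1 hy
    exact ⟨p, Nat.prime_of_mem_primeFactorsList (Multiset.mem_coe.1 hp), hyP⟩
  have hspan : Ideal.span {((q : ℕ) : 𝓞 K)} ≤ P := (Ideal.span_singleton_le_iff_mem _).2 hqP
  have hnq : Ideal.absNorm (Ideal.span {((q : ℕ) : 𝓞 K)}) = q ^ 2 := by
    rw [Ideal.absNorm_span_singleton]
    have e : ((q : ℕ) : 𝓞 K) = algebraMap ℤ (𝓞 K) (q : ℤ) := by simp
    rw [e, Algebra.norm_algebraMap, RingOfIntegers.rank, hK]
    simp
  have hdvd : Ideal.absNorm P ∣ q ^ 2 := by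
    rw [← hnq]
    exact Ideal.absNorm_dvd_absNorm_of_le hspan
  obtain ⟨i, hi, hPi⟩ := (Nat.dvd_prime_pow hq).1 hdvd
  have hi0 : i ≠ 0 := by
    rintro rfl
    rw [pow_zero, Ideal.absNorm_eq_one_iff] at hPi
    exact hP.ne_top hPi
  have hq0 : ((q : ℕ) : 𝓞 K) ≠ 0 := by
    exact_mod_cast hq.ne_zero
  have hspan0 : Ideal.span {((q : ℕ) : 𝓞 K)} ≠ ⊥ := by
    rw [Ne, Ideal.span_singleton_eq_bot]
    exact hq0
  obtain ⟨J, hJ⟩ := Ideal.dvd_iff_le.2 hspan
  have hmul : q ^ 2 = Ideal.absNorm P * Ideal.absNorm J := by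
    rw [← hnq, hJ, map_mul]
  interval_cases i
  · exact absurd rfl hi0
  · -- degree one
    rw [pow_one] at hPi
    obtain ⟨x, hx⟩ := h q hq (by rw [hPi] at hB; exact hB) ⟨P, hPi⟩
    have hxn : Ideal.absNorm (Ideal.span {x}) = q := by
      rw [Ideal.absNorm_span_singleton, hx]
    have hxp : (Ideal.span {x}).IsPrime := by
      apply Ideal.isPrime_of_irreducible_absNorm
      rw [hxn]
      exact hq
    have hx0 : Ideal.span {x} ≠ ⊥ := by
      intro h0
      rw [h0, Ideal.absNorm_bot] at hxn
      exact hq.ne_zero hxn.symm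
    have hxq : Ideal.span {x} ∣ Ideal.span {((q : ℕ) : 𝓞 K)} := by
      rw [Ideal.dvd_iff_le, Ideal.span_singleton_le_iff_mem]
      have := Ideal.absNorm_mem (Ideal.span {x})
      rwa [hxn] at this
    by_cases hPx : P = Ideal.span {x}
    · rw [hPx]
      exact ⟨⟨x, rfl⟩⟩
    · -- the product of two different primes
      have hxJ : Ideal.span {x} ∣ J := by
        rw [hJ] at hxq
        have hpr : Prime (Ideal.span {x}) := Ideal.prime_of_isPrime hx0 hxp
        rcases hpr.dvd_or_dvd hxq with h5 | h5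
        · exfalso
          apply hPx
          rw [Ideal.dvd_iff_le] at h5
          exact (hmax.eq_of_le hxp.ne_top h5)
        · exact h5
      obtain ⟨J', hJ'⟩ := hxJ
      have hJn : Ideal.absNorm J = q := by
        rw [hPi, pow_two] at hmul
        exact (Nat.eq_of_mul_eq_mul_left hq.pos hmul).symm
      have hJ'1 : J' = ⊤ := by
        rw [← Ideal.absNorm_eq_one_iff]
        have h6 : q = q * Ideal.absNorm J' := by
          conv_lhs => rw [← hJn, hJ', map_mul, hxn]
        exact (Nat.eq_of_mul_eq_mul_left hq.pos (by rw [mul_one]; exact h6)).symm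
      have hJx : J = Ideal.span {x} := by
        rw [hJ', hJ'1, Ideal.mul_top]
      rw [hJx] at hJ
      obtain ⟨y, hy⟩ : x ∣ ((q : ℕ) : 𝓞 K) := by
        rw [← Ideal.span_singleton_le_span_singleton, hJ]
        exact Ideal.mul_le_right
      have hx0' : x ≠ 0 := by
        rintro rfl
        apply hx0
        simp
      refine ⟨⟨y, ?_⟩⟩
      have h7 : P * Ideal.span {x} = Ideal.span {y} * Ideal.span {x} := by
        rw [← hJ, Ideal.span_singleton_mul_span_singleton, hy, mul_comm]
      exact mul_right_cancel₀ hx0 h7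
  · -- degree two
    have hJ1 : J = ⊤ := by
      rw [← Ideal.absNorm_eq_one_iff]
      rw [hPi] at hmul
      exact (Nat.eq_of_mul_eq_mul_left (pow_pos hq.pos 2) (by rw [mul_one]; exact hmul)).symm
    rw [hJ1, Ideal.mul_top] at hJ
    rw [← hJ]
    exact ⟨⟨_, rfl⟩⟩

theorem pid_of (K : Type) [Field K] [NumberField K] (B : ℝ) (hG : Gen K B = ⊤)
    (h : ∀ P : Ideal (𝓞 K), P.IsPrime → ((Ideal.absNorm P : ℕ) : ℝ) ≤ B → P.IsPrincipal) :
    IsPrincipalIdealRing (𝓞 K) := by
  rw [← card_classGroup_eq_one_iff, Fintype.card_eq_one_iff]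
  refine ⟨1, fun c => ?_⟩
  have h1 : Gen K B = ⊥ := by
    rw [Gen, Subgroup.closure_eq_bot_iff]
    rintro c ⟨P, hP, hPB, rfl⟩
    rw [Set.mem_singleton_iff, ClassGroup.mk0_eq_one_iff]
    exact h _ hP hPB
  have h2 : c ∈ Gen K B := by
    rw [hG]
    trivial
  rw [h1] at h2
  exact Subgroup.mem_bot.1 h2

theorem good_of (a : ℝ) (d : ℕ) (h : Pool.Agent.H38R2.CG2.GoodA a d) : Good a d := by
  intro K _ _ hK hx
  have hG : Gen K ((Real.log d) ^ a) = ⊤ := h K hK hx
  refine ⟨hG, ⟨fun h1 P _ _ => h1.principal P, fun h1 => pid_of K _ hG h1⟩,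
    ⟨?_, fun h1 => pid_of K _ hG fun P hP hPB => principal_of K hK _ h1 P hP hPB⟩⟩
  rintro h1 q hq _ ⟨P, hP⟩
  obtain ⟨x, hx⟩ := (h1.principal P).principal
  refine ⟨x, ?_⟩
  rw [← hP, hx]
  exact (Ideal.absNorm_span_singleton x).symm

/-- For every `a > 2`: for all but `o(X)` of the squarefree `d ≤ X`, and for all but `o(π(X))` of the
primes `d ≤ X`, the class group of `ℚ(√d)` is generated by the prime ideals of norm at most
`(log d) ^ a`, and unique factorisation is decided by them. -/
theorem result : ∀ a : ℝ, 2 < a →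
    Tendsto (fun X : ℕ =>
      (((Finset.Icc 2 X).filter (fun d => Squarefree d ∧ ¬ Good a d)).card : ℝ) / X)
      atTop (nhds 0) ∧
    Tendsto (fun X : ℕ =>
      (((Finset.Icc 2 X).filter (fun p => p.Prime ∧ ¬ Good a p)).card : ℝ) /
        (((Finset.Icc 2 X).filter Nat.Prime).card : ℝ))
      atTop (nhds 0) := by
  intro a ha
  constructor
  · refine squeeze_zero (fun X => by positivity) (fun X => ?_)
      (Run7.h784.CG.All.finalAll a ha)
    refine div_le_div_of_nonneg_right ?_ (Nat.cast_nonneg _)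
    have h1 : (Finset.Icc 2 X).filter (fun d => Squarefree d ∧ ¬ Good a d) ⊆
        (Finset.Icc 2 X).filter (fun d => Squarefree d ∧ ¬ Pool.Agent.H38R2.CG2.GoodA a d) := by
      intro d hd
      rw [Finset.mem_filter] at hd ⊢
      exact ⟨hd.1, hd.2.1, fun h => hd.2.2 (good_of a d h)⟩
    exact_mod_cast Finset.card_le_card h1
  · refine squeeze_zero (fun X => by positivity) (fun X => ?_)
      (Run7.h784.CG.All.finalPrimes a ha)
    refine div_le_div_of_nonneg_right ?_ (Nat.cast_nonneg _)
    have h1 : (Finset.Icc 2 X).filter (fun d => d.Prime ∧ ¬ Good a d) ⊆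
        (Finset.Icc 2 X).filter (fun d => d.Prime ∧ ¬ Pool.Agent.H38R2.CG2.GoodA a d) := by
      intro d hd
      rw [Finset.mem_filter] at hd ⊢
      exact ⟨hd.1, hd.2.1, fun h => hd.2.2 (good_of a d h)⟩
    exact_mod_cast Finset.card_le_card h1

end Pool.Agent.Results.MP_321647_nt.GeneratedByTinyPrimes
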