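import Pool.Agent.Run7.h940.CN.E4

/-!
# Class numbers of real quadratic fields with very few exceptions

For every `δ` between `0` and `1/2`, all but `O(X exp(-(log X)^(δ/16)))` of the squarefree `d ≤ X` have
`h(ℚ(√d)) ≤ √d / (log d)^(3/2 - δ)`.

The exceptional set is much smaller than the set of the primes up to `X`, or the set of the radicands `p`, `2 q`,
`q r` to which genus theory restricts unique factorisation; so the bound holds for 100 percent of these.

Proof. (1) All but `O(X exp(-(log X)^(δ/16)))` of the squarefree `d ≤ X` have a fundamental unit larger than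
`exp((log X)^(3/2 - δ/2))`: the theorem behind MP_070445_nt.LargeUnits of the starting files (determinant
method). (2) `L(1, χ)` is at most a constant plus the mean value of the divisor sums `Σ_{m ∣ n} χ(m) ≥ 0`, which is
`O(exp(Σ_{p ≤ N} χ(p)/p))` by the inequality of Halberstam and Richert; by the second moment and the
Pólya-Vinogradov inequality the primes between `exp((log X)^(δ/4))` and a power of `X` contribute at most `1` to the
exponent for all but `O(X exp(-(log X)^(δ/4)))` of the `d`. So `L(1, χ) ≤ C (log X)^(δ/4)`. (3) The class number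
formula.
-/

set_option autoImplicit false

namespace Pool.Agent.Results.MP_321647_nt.SmallClassNumbers

/-- The class number of `ℚ(√d)` is at most `√d / (log d) ^ (3/2 - δ)`. -/
def Small (δ : ℝ) (d : ℕ) : Prop :=
  ∀ (K : Type) [Field K] [NumberField K], Module.finrank ℚ K = 2 → (∃ x : K, x ^ 2 = (d : K)) →
    (NumberField.classNumber K : ℝ) ≤ √(d : ℝ) / Real.log d ^ (3 / 2 - δ)

open Classical in
/-- For every `δ` with `0 < δ < 1/2` there is `C` such that for all `X ≥ 2` all but at most
`C X exp(-(log X) ^ (δ/16))` of the squarefree `d` with `2 ≤ d ≤ X` satisfy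
`h(ℚ(√d)) ≤ √d / (log d) ^ (3/2 - δ)`. -/
theorem result (δ : ℝ) (hδ : 0 < δ) (hδ2 : δ < 1 / 2) : ∃ C : ℝ, ∀ X : ℕ, 2 ≤ X →
    (((Finset.Icc 2 X).filter (fun d => Squarefree d ∧ ¬ Small δ d)).card : ℝ) ≤
      C * X * Real.exp (-(Real.log X ^ (δ / 16))) :=
  Run7.h940.CN.strong hδ hδ2

end Pool.Agent.Results.MP_321647_nt.SmallClassNumbers
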