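import Pool.Agent.Results.MP_321647_nt.SparseExceptions
import Pool.Agent.N760.IT.C

/-!
# Class groups of the real quadratic fields near the members of almost all orbits of Euler's function

Let `φ_k` be the `k`-th iterate of Euler's function, `φ_0(m) = m`. Let `f` be a positive multiplicative function of at most
polynomial growth such that `f p ≤ M p` for the large primes `p`, with different values at different large primes; for example
the identity, Euler's function or the sum of the divisors. Let `G` have steps bounded below by a positive constant and growth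
at most `v^d`; for example `G v = α v^d` with `α > 0`. Let `a > 2`, `κ ≥ 0` and `2 d / a + κ < 1` (all `d` and all `κ < 1` are
admissible if `a` is large). There is `K(m)` tending to infinity such that for almost all `m`, for all `k ≤ K(m)`, with
`v = f(φ_k(m))`, ALL squarefree integers `D ≥ 2` within `v^κ` of `G v` have the following properties. Let `h` be the class number
of `ℚ(√D)`, `B = (log D)^a` and `n = log D / (2 log log D)`:

* at least `h / D^(1/(2a) + ε)` ideal classes are products of at most `n` classes of prime ideals of norm at most `B`;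
* the subgroup generated by the classes of the prime ideals of norm at most `B` has index at most `D^(1/(2a) + ε)`;
* if all prime ideals of norm at most `B` are principal, then `h ≤ D^(1/(2a) + ε)`.

The starting theorem `SparseExceptions` of this problem has `O(X^(2/a + ε))` exceptions `D ≤ X`. The iterates of Euler's
function are not multiplicative, their values form a thin set and are taken with very large multiplicities, so that the number
of the exceptions alone gives nothing. The tool `N760/IT` of the starting files is used.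
-/

set_option autoImplicit false

namespace Pool.Agent.Results.MP_321647_nt.TotientOrbits

open Finset NumberField Filter Topology

/-- The ideal classes that are products of at most `n` classes of prime ideals of norm at most `B`. -/
def Reach (K : Type) [Field K] [NumberField K] (B n : ℝ) : Set (ClassGroup (𝓞 K)) :=
  {C | ∃ L : Multiset (nonZeroDivisors (Ideal (𝓞 K))),
    (∀ P ∈ L, (P : Ideal (𝓞 K)).IsPrime ∧ ((Ideal.absNorm (P : Ideal (𝓞 K)) : ℕ) : ℝ) ≤ B) ∧
    (L.card : ℝ) ≤ n ∧ (L.map (fun P => ClassGroup.mk0 P)).prod = C}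

/-- The subgroup of the class group generated by the classes of the nonzero prime ideals of norm at
most `B`. -/
noncomputable def Gen (K : Type) [Field K] [NumberField K] (B : ℝ) : Subgroup (ClassGroup (𝓞 K)) :=
  Subgroup.closure {c | ∃ P : nonZeroDivisors (Ideal (𝓞 K)), (P : Ideal (𝓞 K)).IsPrime ∧
    ((Ideal.absNorm (P : Ideal (𝓞 K)) : ℕ) : ℝ) ≤ B ∧ ClassGroup.mk0 P = c}

/-- The property of the squarefree integer `D` in the theorem. -/
def Good (a ε : ℝ) (D : ℕ) : Prop :=
  ∀ (K : Type) [Field K] [NumberField K], Module.finrank ℚ K = 2 → (∃ x : K, x ^ 2 = (D : K)) →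
    (Nat.card (ClassGroup (𝓞 K)) : ℝ) ≤ (D : ℝ) ^ (1 / (2 * a) + ε) *
      ((Reach K ((Real.log D) ^ a) (Real.log D / (2 * Real.log (Real.log D)))).ncard : ℝ) ∧
    ((Gen K ((Real.log D) ^ a)).index : ℝ) ≤ (D : ℝ) ^ (1 / (2 * a) + ε) ∧
    ((∀ P : Ideal (𝓞 K), P.IsPrime → ((Ideal.absNorm P : ℕ) : ℝ) ≤ (Real.log D) ^ a →
      P.IsPrincipal) → (Nat.card (ClassGroup (𝓞 K)) : ℝ) ≤ (D : ℝ) ^ (1 / (2 * a) + ε))

/-- A positive multiplicative function of at most polynomial growth, at most `M p` at the large primes `p` and with different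
values at different large primes. -/
structure Moderate (f : ℕ → ℕ) : Prop where
  mul : ∀ m n : ℕ, Nat.Coprime m n → f (m * n) = f m * f n
  pos : ∀ m : ℕ, 1 ≤ m → 1 ≤ f m
  growth : ∃ C D : ℕ, ∀ m : ℕ, 1 ≤ m → f m ≤ C * m ^ D
  prime : ∃ P M : ℕ, ∀ p : ℕ, P ≤ p → p.Prime → f p ≤ M * p ∧ ∀ q : ℕ, P ≤ q → q.Prime → f q = f p → q = p

/-- The steps of `G` are at least a positive constant, and `G` grows at most like `v ^ d`, `d ≥ 1`. -/
structure Expanding (G : ℕ → ℝ) (d : ℝ) : Prop where
  one_le : 1 ≤ d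
  step : ∃ a : ℝ, 0 < a ∧ ∀ v : ℕ, 1 ≤ v → a ≤ G (v + 1) - G v
  growth : ∃ C : ℝ, ∀ v : ℕ, 1 ≤ v → G v ≤ C * (v : ℝ) ^ d

open Classical in
/-- The proportion of the positive integers `m ≤ N` without the property `P` tends to `0`. -/
def AlmostAll (P : ℕ → Prop) : Prop :=
  Tendsto (fun N : ℕ => (((Icc 1 N).filter (fun m => ¬ P m)).card : ℝ) / N) atTop (𝓝 0)

/-- the value of `f` at the `k`-th iterate of Euler's function -/
def orb (f : ℕ → ℕ) (k m : ℕ) : ℕ := f (Nat.totient^[k] m)

theorem good_mono {a ε ε' : ℝ} (h : ε' ≤ ε) {D : ℕ} (hD : 1 ≤ D) (hg : SparseExceptions.Good a ε' D) : Good a ε D := by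
  have hD1 : (1 : ℝ) ≤ D := by exact_mod_cast hD
  have hle : (D : ℝ) ^ (1 / (2 * a) + ε') ≤ (D : ℝ) ^ (1 / (2 * a) + ε) :=
    Real.rpow_le_rpow_of_exponent_le hD1 (by linarith)
  intro K _ _ h1 h2
  obtain ⟨g1, g2, g3⟩ := hg K h1 h2
  refine ⟨g1.trans ?_, g2.trans hle, fun h3 => (g3 h3).trans hle⟩
  exact mul_le_mul_of_nonneg_right hle (Nat.cast_nonneg _)

/-- **Class groups of real quadratic fields along the orbits of Euler's function.** (1) Let `a > 2`, `ε > 0`, `κ ≥ 0`. For all
`f` multiplicative and positive, of at most polynomial growth, with `f p ≤ M p` at the large primes, and injective there, and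
all `G` with steps `≥ const > 0` and growth at most `v ^ d`, `2 d / a + κ < 1`, there is `K(m)` tending to infinity such that
for almost all `m`, for all `k ≤ K(m)`, with `v = f(φ_k(m))`, all squarefree integers `D ≥ 2` with `|D - G v| ≤ v ^ κ` have the
property `Good a ε`. (2) The identity, Euler's function and the sum of the divisors are examples of such functions `f`, and
`α v ^ d` with `α > 0`, `d ≥ 1` is an example of `G`. -/
theorem result :
    (∀ a ε κ : ℝ, 2 < a → 0 < ε → 0 ≤ κ → ∀ f : ℕ → ℕ, Moderate f → ∀ (G : ℕ → ℝ) (d : ℝ), Expanding G d →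
      2 * d / a + κ < 1 → ∃ K : ℕ → ℕ, Tendsto K atTop atTop ∧
        AlmostAll (fun m => ∀ k ≤ K m, ∀ D : ℕ, 2 ≤ D → Squarefree D →
          |(D : ℝ) - G (orb f k m)| ≤ (orb f k m : ℝ) ^ κ → Good a ε D)) ∧
    (Moderate (fun m => m) ∧ Moderate Nat.totient ∧ Moderate (fun m => ∑ d ∈ m.divisors, d)) ∧
    ∀ α d : ℝ, 0 < α → 1 ≤ d → Expanding (fun v => α * (v : ℝ) ^ d) d := by
  classical
  refine ⟨fun a ε κ ha hε hκ f hf G d hG h1 => ?_, ?_, fun α d hα hd => ?_⟩
  · have hcount : ∀ ε' : ℝ, 0 < ε' → ∃ C : ℝ, ∀ X : ℕ, 1 ≤ X →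
        ({t : ℕ | 1 ≤ t ∧ t ≤ X ∧ (2 ≤ t ∧ Squarefree t) ∧ ¬ Good a ε t}.ncard : ℝ) ≤ C * (X : ℝ) ^ (2 / a + ε') := by
      intro ε' hε'
      obtain ⟨C, hC, h3⟩ := SparseExceptions.result a (min ε ε') ha (lt_min hε hε')
      refine ⟨C, fun X hX => ?_⟩
      have hX1 : (1 : ℝ) ≤ X := by exact_mod_cast hX
      have hset : {t : ℕ | 1 ≤ t ∧ t ≤ X ∧ (2 ≤ t ∧ Squarefree t) ∧ ¬ Good a ε t} ⊆
          (((Finset.Icc 2 X).filter (fun d => Squarefree d ∧ ¬ SparseExceptions.Good a (min ε ε') d) : Finset ℕ) : Set ℕ) := by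
        rintro t ⟨g1, g2, ⟨g3, g4⟩, g5⟩
        rw [mem_coe, mem_filter, mem_Icc]
        exact ⟨⟨g3, g2⟩, g4, fun g6 => g5 (good_mono (min_le_left _ _) g1 g6)⟩
      have h4 := Set.ncard_le_ncard hset (Finset.finite_toSet _)
      rw [Set.ncard_coe_finset] at h4
      calc _ ≤ (((Finset.Icc 2 X).filter (fun d => Squarefree d ∧ ¬ SparseExceptions.Good a (min ε ε') d)).card : ℝ) := by
            exact_mod_cast h4
        _ ≤ C * (X : ℝ) ^ (2 / a + min ε ε') := by
            refine le_trans (le_of_eq ?_) (h3 X)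
            congr!
        _ ≤ C * (X : ℝ) ^ (2 / a + ε') := by
            apply mul_le_mul_of_nonneg_left _ hC.le
            exact Real.rpow_le_rpow_of_exponent_le hX1 (by linarith [min_le_right ε ε'])
    have ha0 : 0 ≤ 2 / a := by positivity
    have h1' : d * (2 / a) + κ < 1 := lt_of_le_of_lt (le_of_eq (by ring)) h1
    obtain ⟨K, hK, h2⟩ := Pool.Agent.N760.IT.orbit_good_nat (fun D => 2 ≤ D ∧ Squarefree D) (fun D => Good a ε D)
      (f := f) ⟨hf.mul, hf.pos, hf.growth, hf.prime⟩ (G := G) (d := d) ⟨hG.one_le, hG.step, hG.growth⟩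
      (s := 2 / a) (κ := κ) ha0 hκ h1' hcount
    exact ⟨K, hK, Pool.Agent.N826.IT.Orb.almostAll_mono h2 (fun m hm k hk D hD2 hDs hw =>
      hm k hk D (by omega) ⟨hD2, hDs⟩ hw)⟩
  · exact ⟨⟨Pool.Agent.N760.IT.lm_id.mul, Pool.Agent.N760.IT.lm_id.pos, Pool.Agent.N760.IT.lm_id.growth,
        Pool.Agent.N760.IT.lm_id.prime⟩,
      ⟨Pool.Agent.N733.TG.lm_totient.mul, Pool.Agent.N733.TG.lm_totient.pos, Pool.Agent.N733.TG.lm_totient.growth,
        Pool.Agent.N733.TG.lm_totient.prime⟩,
      ⟨Pool.Agent.N733.TG.lm_sigma.mul, Pool.Agent.N733.TG.lm_sigma.pos, Pool.Agent.N733.TG.lm_sigma.growth,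
        Pool.Agent.N733.TG.lm_sigma.prime⟩⟩
  · obtain ⟨h1, h2, h3⟩ := Pool.Agent.N733.TG.expanding_pow hα hd
    exact ⟨h1, h2, h3⟩

end Pool.Agent.Results.MP_321647_nt.TotientOrbits
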